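import Mathlib
import Pool.Agent.N546.PN.Stm

/-!
# Project PN, part CONV: forms as polynomials
-/

set_option autoImplicit false

namespace Pool.Agent.N665.PN

open Finset Pool.Agent.N546.PN

/-- the coefficient of the monomial `m` -/
noncomputable def cof {n D : ℕ} (F : MvPolynomial (Fin (n + 1)) ℤ) (m : Mon n D) : ℤ :=
  F.coeff (Finsupp.equivFunOnFinite.symm m.1)

/-- the form with the coefficients `c` -/
noncomputable def frm {n D : ℕ} (c : Mon n D → ℤ) : MvPolynomial (Fin (n + 1)) ℤ :=
  ∑ m : Mon n D, MvPolynomial.monomial (Finsupp.equivFunOnFinite.symm m.1) (c m)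

theorem mon_sum {n D : ℕ} (m : Mon n D) : ∑ i, m.1 i = D := (Finset.mem_piAntidiag.1 m.2).1

theorem coeff_frm {n D : ℕ} (c : Mon n D → ℤ) (a : Fin (n + 1) →₀ ℕ) (m : Mon n D)
    (h : Finsupp.equivFunOnFinite.symm m.1 = a) : (frm c).coeff a = c m := by
  unfold frm
  rw [MvPolynomial.coeff_sum, Finset.sum_eq_single m]
  · rw [MvPolynomial.coeff_monomial, if_pos h]
  · intro m' _ hm'
    rw [MvPolynomial.coeff_monomial, if_neg]
    intro h'
    apply hm'
    apply Subtype.ext
    exact Finsupp.equivFunOnFinite.symm.injective (h'.trans h.symm)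
  · intro hm
    exact absurd (Finset.mem_univ m) hm

theorem coeff_frm_zero {n D : ℕ} (c : Mon n D → ℤ) (a : Fin (n + 1) →₀ ℕ)
    (h : ∀ m : Mon n D, Finsupp.equivFunOnFinite.symm m.1 ≠ a) : (frm c).coeff a = 0 := by
  unfold frm
  rw [MvPolynomial.coeff_sum]
  refine Finset.sum_eq_zero fun m _ => ?_
  rw [MvPolynomial.coeff_monomial, if_neg (h m)]

theorem cof_frm {n D : ℕ} (c : Mon n D → ℤ) : cof (frm c) = c := by
  funext m
  exact coeff_frm c _ m rfl

/-- the monomial with the exponents `a`, if their sum is `D` -/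
theorem exists_mon {n D : ℕ} (a : Fin (n + 1) →₀ ℕ) (h : ∑ i, a i = D) :
    ∃ m : Mon n D, Finsupp.equivFunOnFinite.symm m.1 = a := by
  refine ⟨⟨fun i => a i, Finset.mem_piAntidiag.2 ⟨h, fun i _ => Finset.mem_univ i⟩⟩, ?_⟩
  ext i
  simp

theorem degree_eq {n : ℕ} (a : Fin (n + 1) →₀ ℕ) : a.degree = ∑ i, a i := by
  rw [Finsupp.degree_eq_sum]

theorem sum_of_eq {n D : ℕ} {a : Fin (n + 1) →₀ ℕ} {m : Mon n D}
    (h : Finsupp.equivFunOnFinite.symm m.1 = a) : ∑ i, a i = D := by
  refine Eq.trans ?_ (mon_sum m)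
  rw [← h]
  simp

theorem frm_hom {n D : ℕ} (c : Mon n D → ℤ) : (frm c).IsHomogeneous D := by
  unfold frm
  refine MvPolynomial.IsHomogeneous.sum _ _ _ fun m _ => ?_
  apply MvPolynomial.isHomogeneous_monomial
  rw [degree_eq]
  exact sum_of_eq (m := m) rfl

theorem frm_cof {n D : ℕ} {F : MvPolynomial (Fin (n + 1)) ℤ} (hF : F.IsHomogeneous D) :
    frm (cof (D := D) F) = F := by
  apply MvPolynomial.ext
  intro a
  by_cases h : ∑ i, a i = D
  · obtain ⟨m, hm⟩ := exists_mon a h
    rw [coeff_frm _ a m hm]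
    unfold cof
    rw [hm]
  · rw [coeff_frm_zero _ a (fun m hm => h (sum_of_eq hm))]
    exact (hF.coeff_eq_zero (by rw [degree_eq]; exact h)).symm

theorem conv_val (n D : ℕ) (F : MvPolynomial (Fin (n + 1)) ℤ) (hF : F.IsHomogeneous D)
    (K : Type) [Field K] (x : Fin (n + 1) → K) :
    MvPolynomial.aeval x F = Pool.Agent.N546.PN.val (fun m : Mon n D => ((cof F m : ℤ) : K)) x := by
  conv_lhs => rw [← frm_cof hF]
  unfold frm Pool.Agent.N546.PN.val
  rw [map_sum]
  refine Finset.sum_congr rfl fun m _ => ?_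
  rw [MvPolynomial.aeval_monomial, eq_intCast, Finsupp.prod_fintype _ _ (fun i => pow_zero _)]
  simp

theorem conv_dval (n D : ℕ) (F : MvPolynomial (Fin (n + 1)) ℤ) (hF : F.IsHomogeneous D)
    (K : Type) [Field K] (x : Fin (n + 1) → K) (a : Fin (n + 1)) :
    MvPolynomial.aeval x (MvPolynomial.pderiv a F) =
      dval (fun m : Mon n D => ((cof F m : ℤ) : K)) a x := by
  conv_lhs => rw [← frm_cof hF]
  unfold frm dval
  rw [map_sum, map_sum]
  refine Finset.sum_congr rfl fun m _ => ?_
  rw [MvPolynomial.pderiv_monomial, MvPolynomial.aeval_monomial, eq_intCast,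
    Finsupp.prod_fintype _ _ (fun i => pow_zero _)]
  push_cast
  congr 1
  refine Finset.prod_congr rfl fun i _ => ?_
  congr 1
  rw [Pi.sub_apply, Finsupp.single_apply]
  by_cases h : i = a
  · subst h
    simp
  · rw [if_neg h, if_neg (Ne.symm h)]
    simp

open Classical in
theorem conv_card (n : ℕ) (ι : Type) [Fintype ι] [DecidableEq ι] (e : ι → ℕ) (H : ℕ)
    (P : ((k : ι) → Mon n (e k + 1) → ℤ) → Prop) :
    ({F : ι → MvPolynomial (Fin (n + 1)) ℤ | (∀ k, (F k).IsHomogeneous (e k + 1) ∧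
      ∀ a, |(F k).coeff a| ≤ (H : ℤ)) ∧ P (fun k => cof (F k))} : Set _).ncard =
      ((bx n e H).filter P).card := by
  have hinj : Function.Injective (fun (c : (k : ι) → Mon n (e k + 1) → ℤ) (k : ι) => frm (c k)) := by
    intro c c' h
    funext k
    have h1 := congrFun h k
    simp only at h1
    rw [← cof_frm (c k), h1, cof_frm]
  have himg : {F : ι → MvPolynomial (Fin (n + 1)) ℤ | (∀ k, (F k).IsHomogeneous (e k + 1) ∧
      ∀ a, |(F k).coeff a| ≤ (H : ℤ)) ∧ P (fun k => cof (F k))} =
      (fun (c : (k : ι) → Mon n (e k + 1) → ℤ) (k : ι) => frm (c k)) ''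
        (((bx n e H).filter P : Finset _) : Set ((k : ι) → Mon n (e k + 1) → ℤ)) := by
    ext F
    constructor
    · rintro ⟨h1, h2⟩
      refine ⟨fun k => cof (F k), ?_, ?_⟩
      · rw [Finset.mem_coe, Finset.mem_filter]
        refine ⟨?_, h2⟩
        unfold bx
        rw [Fintype.mem_piFinset]
        intro k
        rw [Fintype.mem_piFinset]
        intro m
        rw [Finset.mem_Icc]
        exact abs_le.1 ((h1 k).2 _)
      · funext k
        exact frm_cof (h1 k).1
    · rintro ⟨c, hc, rfl⟩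
      rw [Finset.mem_coe, Finset.mem_filter] at hc
      obtain ⟨h1, h2⟩ := hc
      unfold bx at h1
      rw [Fintype.mem_piFinset] at h1
      refine ⟨fun k => ⟨frm_hom (c k), fun a => ?_⟩, ?_⟩
      · have h3 := h1 k
        rw [Fintype.mem_piFinset] at h3
        by_cases h : ∃ m : Mon n (e k + 1), Finsupp.equivFunOnFinite.symm m.1 = a
        · obtain ⟨m, hm⟩ := h
          simp only
          rw [coeff_frm _ a m hm]
          exact abs_le.2 (Finset.mem_Icc.1 (h3 m))
        · push Not at h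
          simp only
          rw [coeff_frm_zero _ a h, abs_zero]
          exact Int.natCast_nonneg H
      · have h4 : (fun k => cof (frm (c k))) = c := by
          funext k
          exact cof_frm (c k)
        change P (fun k => cof (frm (c k)))
        rw [h4]
        exact h2
  rw [himg, Set.ncard_image_of_injective _ hinj, Set.ncard_coe_finset]

end Pool.Agent.N665.PN
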